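import Mathlib

namespace Pool.Agent.X194.NP

variable {𝔸 : Type*} [CStarAlgebra 𝔸]

/-- spectral projection at one point -/
noncomputable def P (N : 𝔸) (α : ℂ) : 𝔸 := cfc (fun z : ℂ => if z = α then (1 : ℂ) else 0) N

lemma fmul (hfin : ∀ a : 𝔸, (spectrum ℂ a).Finite) (f g : ℂ → ℂ) (N : 𝔸) :
    cfc (fun z => f z * g z) N = cfc f N * cfc g N :=
  cfc_mul f g N ((hfin N).continuousOn f) ((hfin N).continuousOn g)

lemma fadd (hfin : ∀ a : 𝔸, (spectrum ℂ a).Finite) (f g : ℂ → ℂ) (N : 𝔸) :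
    cfc (fun z => f z + g z) N = cfc f N + cfc g N :=
  cfc_add (R := ℂ) N f g ((hfin N).continuousOn f) ((hfin N).continuousOn g)

lemma fsub (hfin : ∀ a : 𝔸, (spectrum ℂ a).Finite) (f g : ℂ → ℂ) (N : 𝔸) :
    cfc (fun z => f z - g z) N = cfc f N - cfc g N :=
  cfc_sub (R := ℂ) f g N ((hfin N).continuousOn f) ((hfin N).continuousOn g)

lemma fstar (f : ℂ → ℂ) (N : 𝔸) : cfc (fun z => star (f z)) N = star (cfc f N) :=
  cfc_star f N

lemma fsmul (hfin : ∀ a : 𝔸, (spectrum ℂ a).Finite) (c : ℂ) (f : ℂ → ℂ) (N : 𝔸) :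
    cfc (fun z => c * f z) N = c • cfc f N := by
  have := cfc_const_mul (R := ℂ) c f N ((hfin N).continuousOn f)
  simpa [smul_eq_mul] using this

lemma fone (N : 𝔸) (hN : IsStarNormal N) : cfc (fun _ : ℂ => (1 : ℂ)) N = 1 :=
  cfc_const_one ℂ N hN

lemma fid (N : 𝔸) (hN : IsStarNormal N) : cfc (fun z : ℂ => z) N = N :=
  cfc_id' ℂ N hN

lemma fcomm (f g : ℂ → ℂ) (N : 𝔸) : Commute (cfc f N) (cfc g N) := cfc_commute_cfc f g N

lemma fnorm (f : ℂ → ℂ) (N : 𝔸) {c : ℝ} (hc : 0 ≤ c) (h : ∀ z, ‖f z‖ ≤ c) : ‖cfc f N‖ ≤ c :=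
  norm_cfc_le hc (fun z _ => h z)

lemma fsa (f : ℂ → ℂ) (N : 𝔸) (h : ∀ z, star (f z) = f z) : IsSelfAdjoint (cfc f N) := by
  rw [isSelfAdjoint_iff, ← fstar]
  congr 1
  funext z
  exact h z

/-- spectral decomposition -/
lemma dec (hfin : ∀ a : 𝔸, (spectrum ℂ a).Finite) (f : ℂ → ℂ) (N : 𝔸) :
    cfc f N = ∑ α ∈ (hfin N).toFinset, f α • P N α := by
  have h1 : ∀ α, f α • P N α = cfc (fun z : ℂ => f α * (if z = α then (1 : ℂ) else 0)) N := by
    intro α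
    rw [P, ← fsmul hfin]
  simp_rw [h1]
  rw [← cfc_sum (R := ℂ) (fun (α : ℂ) (z : ℂ) => f α * (if z = α then (1 : ℂ) else 0)) N
    (hfin N).toFinset (fun i _ => (hfin N).continuousOn _)]
  apply cfc_congr
  intro z hz
  simp only [Finset.sum_apply]
  have : z ∈ (hfin N).toFinset := (hfin N).mem_toFinset.2 hz
  rw [Finset.sum_eq_single z]
  · simp
  · intro b _ hb
    rw [if_neg (Ne.symm hb)]; simp
  · intro h; exact absurd this h

lemma mulP (hfin : ∀ a : 𝔸, (spectrum ℂ a).Finite) (f : ℂ → ℂ) (N : 𝔸) (α : ℂ) :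
    cfc f N * P N α = f α • P N α := by
  rw [P, ← fmul hfin, ← fsmul hfin]
  congr 1
  funext z
  by_cases h : z = α
  · simp [h]
  · simp [h]

lemma Pmul (hfin : ∀ a : 𝔸, (spectrum ℂ a).Finite) (f : ℂ → ℂ) (N : 𝔸) (α : ℂ) :
    P N α * cfc f N = f α • P N α := by
  have := (fcomm f (fun z : ℂ => if z = α then (1 : ℂ) else 0) N).eq
  rw [P] at *
  rw [← this]
  exact mulP hfin f N α

/-- the real part -/
noncomputable def HH (N : 𝔸) : 𝔸 := cfc (fun z : ℂ => (z.re : ℂ)) N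

/-- the imaginary part -/
noncomputable def KK (N : 𝔸) : 𝔸 := cfc (fun z : ℂ => (z.im : ℂ)) N

lemma HH_eq (hfin : ∀ a : 𝔸, (spectrum ℂ a).Finite) (N : 𝔸) (hN : IsStarNormal N) :
    HH N = (1 / 2 : ℂ) • (N + star N) := by
  have h1 : N + star N = cfc (fun z : ℂ => z + star z) N := by
    rw [fadd hfin, fstar, fid N hN]
  rw [h1, ← fsmul hfin, HH]
  congr 1
  funext z
  apply Complex.ext
  · simp; ring
  · simp

lemma KK_eq (hfin : ∀ a : 𝔸, (spectrum ℂ a).Finite) (N : 𝔸) (hN : IsStarNormal N) :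
    KK N = (-(Complex.I) / 2 : ℂ) • (N - star N) := by
  have h1 : N - star N = cfc (fun z : ℂ => z - star z) N := by
    rw [fsub hfin, fstar, fid N hN]
  rw [h1, ← fsmul hfin, KK]
  congr 1
  funext z
  apply Complex.ext
  · simp; ring
  · simp

lemma HK (hfin : ∀ a : 𝔸, (spectrum ℂ a).Finite) (N : 𝔸) (hN : IsStarNormal N) :
    N = HH N + Complex.I • KK N := by
  have : cfc (fun z : ℂ => (z.re : ℂ) + Complex.I * (z.im : ℂ)) N = HH N + Complex.I • KK N := by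
    rw [fadd hfin, fsmul hfin]; rfl
  rw [← this]
  conv_lhs => rw [← fid N hN]
  congr 1
  funext z
  rw [mul_comm, Complex.re_add_im]

lemma HH_sa (N : 𝔸) : IsSelfAdjoint (HH N) := fsa _ _ (fun z => by simp)
lemma KK_sa (N : 𝔸) : IsSelfAdjoint (KK N) := fsa _ _ (fun z => by simp)

lemma HH_sub_le (hfin : ∀ a : 𝔸, (spectrum ℂ a).Finite) (A B : 𝔸) (hA : IsStarNormal A)
    (hB : IsStarNormal B) : ‖HH B - HH A‖ ≤ ‖B - A‖ := by
  rw [HH_eq hfin A hA, HH_eq hfin B hB, ← smul_sub, norm_smul]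
  have h1 : B + star B - (A + star A) = (B - A) + star (B - A) := by rw [star_sub]; abel
  rw [h1]
  have h2 : ‖(B - A) + star (B - A)‖ ≤ ‖B - A‖ + ‖B - A‖ := by
    refine (norm_add_le _ _).trans ?_
    rw [norm_star]
  have h3 : ‖(1 / 2 : ℂ)‖ = 1 / 2 := by norm_num
  rw [h3]
  linarith

lemma KK_sub_le (hfin : ∀ a : 𝔸, (spectrum ℂ a).Finite) (A B : 𝔸) (hA : IsStarNormal A)
    (hB : IsStarNormal B) : ‖KK B - KK A‖ ≤ ‖B - A‖ := by
  rw [KK_eq hfin A hA, KK_eq hfin B hB, ← smul_sub, norm_smul]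
  have h1 : B - star B - (A - star A) = (B - A) - star (B - A) := by rw [star_sub]; abel
  rw [h1]
  have h2 : ‖(B - A) - star (B - A)‖ ≤ ‖B - A‖ + ‖B - A‖ := by
    refine (norm_sub_le _ _).trans ?_
    rw [norm_star]
  have h3 : ‖(-(Complex.I) / 2 : ℂ)‖ = 1 / 2 := by simp
  rw [h3]
  linarith

end Pool.Agent.X194.NP
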