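import Pool.Agent.X194.NP.Path

namespace Pool.Agent.X194.NP

open NormedSpace

variable {𝔸 : Type*} [CStarAlgebra 𝔸] [Nontrivial 𝔸]

lemma conj_normal {V A : 𝔸} (hV : V ∈ unitary 𝔸) (hA : IsStarNormal A) :
    IsStarNormal (V * A * star V) := by
  constructor
  have h1 : star V * V = 1 := (Unitary.mem_iff.1 hV).1
  have h2 := hA.star_comm_self.eq
  change star (V * A * star V) * (V * A * star V) = (V * A * star V) * star (V * A * star V)
  rw [star_mul, star_mul, star_star]
  calc V * (star A * star V) * (V * A * star V) = V * star A * (star V * V) * A * star V := by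
        noncomm_ring
    _ = V * (star A * A) * star V := by rw [h1]; noncomm_ring
    _ = V * (A * star A) * star V := by rw [h2]
    _ = V * A * (star V * V) * star A * star V := by rw [h1]; noncomm_ring
    _ = V * A * star V * (V * (star A * star V)) := by noncomm_ring

lemma arg_small (u : unitary 𝔸) (hu : ‖(u - 1 : 𝔸)‖ ≤ 1 / 8) :
    ‖Unitary.argSelfAdjoint u‖ ≤ 1 / 4 := by
  rw [Unitary.norm_argSelfAdjoint (by linarith)]
  have h1 : Real.cos (1 / 4) ≤ 1 - ‖(u - 1 : 𝔸)‖ ^ 2 / 2 := by
    have h2 := Real.cos_bound (x := 1 / 4) (by rw [abs_of_pos] <;> norm_num)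
    have h3 := (abs_le.1 h2).2
    have h4 : |(1 : ℝ) / 4| = 1 / 4 := abs_of_pos (by norm_num)
    rw [h4] at h3
    have h5 : ‖(u - 1 : 𝔸)‖ ^ 2 ≤ (1 / 8) ^ 2 := by gcongr
    norm_num at h3 h5 ⊢
    linarith
  calc Real.arccos (1 - ‖(u - 1 : 𝔸)‖ ^ 2 / 2) ≤ Real.arccos (Real.cos (1 / 4)) :=
        Real.antitone_arccos h1
    _ = 1 / 4 := Real.arccos_cos (by norm_num) (by linarith [Real.pi_gt_three])

theorem Conn.conj {W A : 𝔸} (hW : W ∈ unitary 𝔸) (hA : IsStarNormal A) (h : ‖W - 1‖ ≤ 1 / 8) :
    Conn (2 * ‖W * A - A * W‖) A (W * A * star W) := by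
  set u : unitary 𝔸 := ⟨W, hW⟩ with hu
  set x := Unitary.argSelfAdjoint u with hx
  have hux : (selfAdjoint.expUnitary x : 𝔸) = W := by
    have := expUnitary_argSelfAdjoint (u := u) (by
      change ‖W - 1‖ < 2
      linarith)
    rw [this]
  have hxn : ‖(x : 𝔸)‖ ≤ 1 / 4 := arg_small u h
  set κ : 𝔸 := Complex.I • (x : 𝔸) with hκ
  have hκn : ‖κ‖ ≤ 1 / 4 := by
    rw [hκ, norm_smul, Complex.norm_I, one_mul]; exact hxn
  have hstarκ : star κ = -κ := by
    rw [hκ, star_smul, x.2.star_eq]
    simp
  set V : ℝ → 𝔸 := fun t => exp (t • κ) with hV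
  have hVu : ∀ t, V t ∈ unitary 𝔸 := by
    intro t
    have : V t = (selfAdjoint.expUnitary (t • x) : 𝔸) := by
      rw [selfAdjoint.expUnitary_coe, hV]
      simp only
      congr 1
      rw [hκ]
      have : ((t • x : selfAdjoint 𝔸) : 𝔸) = t • (x : 𝔸) := rfl
      rw [this, smul_comm]
    rw [this]
    exact (selfAdjoint.expUnitary (t • x)).2
  have hVs : ∀ t, star (V t) = exp (t • (-κ)) := by
    intro t
    rw [hV]
    simp only
    rw [star_exp, star_smul, hstarκ]
    simp
  have hV1 : V 1 = W := by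
    rw [← hux, selfAdjoint.expUnitary_coe, hV]
    simp only [one_smul]
    rfl
  have hV0 : V 0 = 1 := by rw [hV]; simp
  have hVn : ∀ t, ‖V t‖ ≤ 1 := fun t => (CStarRing.norm_of_mem_unitary (hVu t)).le
  have hVsn : ∀ t, ‖star (V t)‖ ≤ 1 := fun t => by rw [norm_star]; exact hVn t
  have hd1 : ∀ t, HasDerivAt V (V t * κ) t := fun t => hasDerivAt_exp_smul_const κ t
  have hd2 : ∀ t, HasDerivAt (fun t => star (V t)) ((-κ) * star (V t)) t := by
    intro t
    have e : (fun t => star (V t)) = fun t : ℝ => exp (t • (-κ)) := by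
      funext t; exact hVs t
    rw [e, hVs]
    exact hasDerivAt_exp_smul_const' (-κ) t
  set D : 𝔸 := κ * A - A * κ with hD
  have hd : ∀ t, HasDerivAt (fun t => V t * A * star (V t)) (V t * D * star (V t)) t := by
    intro t
    have h1 := ((hd1 t).mul_const A).mul (hd2 t)
    have e : V t * D * star (V t) = V t * κ * A * star (V t) + V t * A * (-κ * star (V t)) := by
      rw [hD]; noncomm_ring
    rw [e]
    exact h1
  have hb1 : ∀ t, ‖V t * D * star (V t)‖ ≤ ‖D‖ := by
    intro t
    calc ‖V t * D * star (V t)‖ ≤ ‖V t * D‖ * ‖star (V t)‖ := norm_mul_le _ _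
      _ ≤ (‖V t‖ * ‖D‖) * ‖star (V t)‖ := by gcongr; exact norm_mul_le _ _
      _ ≤ (1 * ‖D‖) * 1 := by
          gcongr
          · exact hVn t
          · exact hVsn t
      _ = ‖D‖ := by ring
  have hlip : ∀ s t, ‖V s * A * star (V s) - V t * A * star (V t)‖ ≤ ‖D‖ * |s - t| := by
    intro s t
    have := Convex.norm_image_sub_le_of_norm_hasDerivWithin_le
      (f := fun t => V t * A * star (V t)) (s := Set.univ) (C := ‖D‖)
      (x := t) (y := s) (fun x _ => (hd x).hasDerivWithinAt) (fun x _ => hb1 x)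
      convex_univ (Set.mem_univ _) (Set.mem_univ _)
    simpa [Real.norm_eq_abs] using this
  have hVsm : ∀ t ∈ Set.Icc (0 : ℝ) 1, ‖V t - 1‖ ≤ 1 / 4 := by
    intro t ht
    have := Convex.norm_image_sub_le_of_norm_hasDerivWithin_le
      (f := V) (s := Set.univ) (C := 1 / 4)
      (x := (0 : ℝ)) (y := t) (fun x _ => (hd1 x).hasDerivWithinAt) (fun x _ => by
        refine (norm_mul_le _ _).trans ?_
        have := hVn x
        have h0 := norm_nonneg (V x)
        have h1 := norm_nonneg κ
        nlinarith)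
      convex_univ (Set.mem_univ _) (Set.mem_univ _)
    rw [hV0, sub_zero, Real.norm_eq_abs, abs_of_nonneg ht.1] at this
    linarith [ht.2]
  have hmain : ‖D‖ ≤ 2 * ‖W * A - A * W‖ := by
    have hdh : ∀ t ∈ Set.Icc (0 : ℝ) 1, HasDerivWithinAt
        (fun t : ℝ => V t * A * star (V t) - t • D) (V t * D * star (V t) - D) (Set.Icc 0 1) t := by
      intro t _
      have h1 : HasDerivAt (fun t : ℝ => t • D) ((1 : ℝ) • D) t := (hasDerivAt_id t).smul_const D
      rw [one_smul] at h1
      exact ((hd t).sub h1).hasDerivWithinAt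
    have hbh : ∀ t ∈ Set.Icc (0 : ℝ) 1, ‖V t * D * star (V t) - D‖ ≤ 1 / 2 * ‖D‖ := by
      intro t ht
      have e : V t * D * star (V t) - D = (V t - 1) * D * star (V t) + D * star (V t - 1) := by
        rw [star_sub, star_one]; noncomm_ring
      rw [e]
      have hv := hVsm t ht
      have h1 : ‖(V t - 1) * D * star (V t)‖ ≤ (1 / 4 * ‖D‖) * 1 := by
        refine (norm_mul_le _ _).trans ?_
        gcongr
        · refine (norm_mul_le _ _).trans ?_
          gcongr
        · exact hVsn t
      have h2 : ‖D * star (V t - 1)‖ ≤ ‖D‖ * (1 / 4) := by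
        refine (norm_mul_le _ _).trans ?_
        rw [norm_star]
        gcongr
      refine (norm_add_le _ _).trans ?_
      linarith
    have := Convex.norm_image_sub_le_of_norm_hasDerivWithin_le
      (s := Set.Icc (0 : ℝ) 1) (x := (0 : ℝ)) (y := 1) hdh hbh (convex_Icc 0 1)
      (by simp) (by simp)
    simp only [one_smul, zero_smul, sub_zero, norm_one, mul_one] at this
    rw [hV0, hV1] at this
    simp only [one_mul, star_one, mul_one] at this
    have e1 : W * A * star W - A = (W * A - A * W) * star W := by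
      have : W * star W = 1 := (Unitary.mem_iff.1 hW).2
      calc W * A * star W - A = W * A * star W - A * (W * star W) := by rw [this, mul_one]
        _ = (W * A - A * W) * star W := by noncomm_ring
    have e2 : ‖W * A * star W - A‖ ≤ ‖W * A - A * W‖ := by
      rw [e1]
      refine (norm_mul_le _ _).trans ?_
      rw [norm_star, CStarRing.norm_of_mem_unitary hW, mul_one]
    have e3 : ‖D‖ ≤ ‖W * A * star W - A‖ + ‖W * A * star W - D - A‖ := by
      have : D = (W * A * star W - A) - (W * A * star W - D - A) := by abel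
      calc ‖D‖ = ‖(W * A * star W - A) - (W * A * star W - D - A)‖ := by rw [← this]
        _ ≤ _ := norm_sub_le _ _
    linarith
  refine ⟨fun t => V t * A * star (V t), ?_, ?_, fun t => conj_normal (hVu t) hA, ?_⟩
  · simp only; rw [hV0]; simp
  · simp only; rw [hV1]
  · intro s t
    exact (hlip s t).trans (mul_le_mul_of_nonneg_right hmain (abs_nonneg _))

end Pool.Agent.X194.NP
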