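import Pool.Agent.X194.NP.Main

namespace Pool.Agent.X194.NP

open MeasureTheory

theorem core : ∃ δ : ℝ, 0 < δ ∧ ∀ (𝔸 : Type) [CStarAlgebra 𝔸] [Nontrivial 𝔸]
    (_ : ∀ a : 𝔸, (spectrum ℂ a).Finite) (A B : 𝔸), IsStarNormal A → IsStarNormal B →
    ‖B - A‖ ≤ δ → Conn 10000 A B := by
  obtain ⟨g, φ, hg, hg1, hφ, hφ0, hφs⟩ := exists_mult
  set I₁ : ℝ := 2 * Real.pi * ∫ w, |w| * ‖g w‖ with hI1
  set I₀ : ℝ := ∫ w, ‖g w‖ with hI0
  have h1 : 0 ≤ I₁ := by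
    have : 0 ≤ ∫ w, |w| * ‖g w‖ := integral_nonneg (fun w => by positivity)
    have := Real.pi_pos
    positivity
  have h0 : 0 ≤ I₀ := integral_nonneg (fun w => by positivity)
  refine ⟨1 / (1000 * (I₁ + I₀ + 1)), by positivity, ?_⟩
  intro 𝔸 _ _ hfin A B hA hB hAB
  set δ : ℝ := 1 / (1000 * (I₁ + I₀ + 1)) with hδ
  have hδ0 : 0 < δ := by rw [hδ]; positivity
  have hδe : δ * (I₁ + I₀ + 1) = 1 / 1000 := by
    rw [hδ]; field_simp
  have hδ1 : I₁ * δ ≤ 1 / 1000 := by nlinarith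
  have hδ2 : I₀ * δ ≤ 1 := by nlinarith
  have hδ3 : δ ≤ 1 := by nlinarith
  refine core_path hfin φ hφs A B (XX hfin φ A B) hA hB rfl ?_ ?_ (hAB.trans hδ3)
  · refine (XX_near hfin g φ hg hg1 hφ hφ0 A B hA hB).trans ?_
    exact (mul_le_mul_of_nonneg_left hAB h1).trans hδ1
  · refine (XX_comm hfin g φ hg hφ A B (KK A) (KK B) (fun w => fcomm _ _ A)
      (fun w => fcomm _ _ B)).trans ?_
    refine (mul_le_mul_of_nonneg_left ((KK_sub_le hfin A B hA hB).trans hAB) h0).trans hδ2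

lemma normal_smul {𝔸 : Type} [CStarAlgebra 𝔸] (c : ℂ) {N : 𝔸} (hN : IsStarNormal N) :
    IsStarNormal (c • N) := by
  constructor
  rw [star_smul]
  exact (hN.star_comm_self.smul_left _).smul_right _

/-- all normal elements at distance at most `1` are connected by normal paths of bounded
Lipschitz constant -/
theorem core_one : ∃ C : ℝ, ∀ (𝔸 : Type) [CStarAlgebra 𝔸] [Nontrivial 𝔸]
    (_ : ∀ a : 𝔸, (spectrum ℂ a).Finite) (A B : 𝔸), IsStarNormal A → IsStarNormal B →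
    ‖B - A‖ ≤ 1 → Conn C A B := by
  obtain ⟨δ, hδ, h⟩ := core
  refine ⟨10000 / δ, ?_⟩
  intro 𝔸 _ _ hfin A B hA hB hAB
  obtain ⟨γ, h0, h1, hn, hl⟩ := h 𝔸 hfin ((δ : ℂ) • A) ((δ : ℂ) • B) (normal_smul _ hA)
    (normal_smul _ hB) (by
      rw [← smul_sub, norm_smul, Complex.norm_real, Real.norm_eq_abs, abs_of_pos hδ]
      nlinarith)
  have hδc : (δ : ℂ) ≠ 0 := by exact_mod_cast hδ.ne'
  refine ⟨fun t => ((δ : ℂ)⁻¹) • γ t, ?_, ?_, fun t => normal_smul _ (hn t), ?_⟩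
  · simp only; rw [h0, smul_smul, inv_mul_cancel₀ hδc, one_smul]
  · simp only; rw [h1, smul_smul, inv_mul_cancel₀ hδc, one_smul]
  · intro s t
    simp only
    rw [← smul_sub, norm_smul, norm_inv, Complex.norm_real, Real.norm_eq_abs, abs_of_pos hδ]
    have := hl s t
    rw [div_mul_eq_mul_div, div_eq_inv_mul]
    exact mul_le_mul_of_nonneg_left this (by positivity)

end Pool.Agent.X194.NP
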