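import Mathlib

namespace Pool.Agent.X194.NP

open MeasureTheory FourierTransform

/-- a compactly supported multiplier with an integrable Fourier transform of finite first
moment -/
lemma exists_mult : ∃ (g φ : ℝ → ℂ), Integrable g ∧ Integrable (fun w => |w| * ‖g w‖) ∧
    (∀ t, φ t = ∫ w, g w * Complex.exp ((2 * Real.pi * w * t : ℝ) * Complex.I)) ∧
    φ 0 = 1 ∧ (∀ t, 1 ≤ |t| → φ t = 0) := by
  classical
  let b : ContDiffBump (0 : ℝ) := ⟨1 / 2, 1, by norm_num, by norm_num⟩
  have hb0 : b 0 = 1 := b.one_of_mem_closedBall (by simp [b])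
  have hbz : ∀ t : ℝ, 1 ≤ |t| → b t = 0 := by
    intro t ht
    apply b.zero_of_le_dist
    simpa [b, Real.dist_eq] using ht
  have hcs : HasCompactSupport (fun t : ℝ => ((b t : ℝ) : ℂ)) := by
    apply b.hasCompactSupport.comp_left (g := fun x : ℝ => (x : ℂ))
    simp
  have hcd : ContDiff ℝ (⊤ : ℕ∞) (fun t : ℝ => ((b t : ℝ) : ℂ)) :=
    Complex.ofRealCLM.contDiff.comp b.contDiff
  let f : SchwartzMap ℝ ℂ := hcs.toSchwartzMap hcd
  let g : SchwartzMap ℝ ℂ := 𝓕 f
  refine ⟨g, fun t => ((b t : ℝ) : ℂ), g.integrable, ?_, ?_, ?_, ?_⟩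
  · have := g.integrable_pow_mul volume 1
    simpa using this
  · intro t
    have h1 : 𝓕⁻ (𝓕 f) = f := by simp
    have h2 : (𝓕⁻ (𝓕 f)) t = f t := by rw [h1]
    rw [SchwartzMap.fourierInv_coe, Real.fourierInv_eq'] at h2
    change f t = _
    rw [← h2]
    apply integral_congr_ae
    filter_upwards with w
    rw [smul_eq_mul, mul_comm]
    congr 2
    simp
    ring
  · simp [hb0]
  · intro t ht
    simp [hbz t ht]

end Pool.Agent.X194.NP
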