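import Pool.Agent.X194.NP.Basic
import Pool.Agent.X194.NP.Four

namespace Pool.Agent.X194.NP

open MeasureTheory

variable {𝔸 : Type*} [CStarAlgebra 𝔸]

/-- the smoothed intertwiner -/
noncomputable def XX (hfin : ∀ a : 𝔸, (spectrum ℂ a).Finite) (φ : ℝ → ℂ) (A B : 𝔸) : 𝔸 :=
  ∑ β ∈ (hfin B).toFinset, ∑ α ∈ (hfin A).toFinset, φ (α.re - β.re) • (P B β * P A α)

lemma F_XX_F (hfin : ∀ a : 𝔸, (spectrum ℂ a).Finite) (φ : ℝ → ℂ) (A B : 𝔸) (a b : ℂ → ℂ) :
    cfc b B * XX hfin φ A B * cfc a A =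
      ∑ β ∈ (hfin B).toFinset, ∑ α ∈ (hfin A).toFinset,
        (b β * a α * φ (α.re - β.re)) • (P B β * P A α) := by
  rw [XX, Finset.mul_sum, Finset.sum_mul]
  apply Finset.sum_congr rfl
  intro β _
  rw [Finset.mul_sum, Finset.sum_mul]
  apply Finset.sum_congr rfl
  intro α _
  have h1 : cfc b B * φ (α.re - β.re) • (P B β * P A α) * cfc a A =
      φ (α.re - β.re) • ((cfc b B * P B β) * (P A α * cfc a A)) := by
    rw [mul_smul_comm, smul_mul_assoc]
    congr 1
    noncomm_ring
  rw [h1, mulP hfin, Pmul hfin, smul_mul_smul_comm, smul_smul]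
  congr 1
  ring

/-- finite propagation -/
lemma prop_L (hfin : ∀ a : 𝔸, (spectrum ℂ a).Finite) (φ : ℝ → ℂ)
    (hφ : ∀ t, 1 ≤ |t| → φ t = 0) (A B : 𝔸) (a b a' b' : ℂ → ℂ)
    (h : ∀ α β : ℂ, |α.re - β.re| < 1 → b β * a α = b' β * a' α) :
    cfc b B * XX hfin φ A B * cfc a A = cfc b' B * XX hfin φ A B * cfc a' A := by
  rw [F_XX_F, F_XX_F]
  apply Finset.sum_congr rfl
  intro β _
  apply Finset.sum_congr rfl
  intro α _
  by_cases hc : |α.re - β.re| < 1
  · rw [h α β hc]
  · rw [hφ _ (not_lt.1 hc), mul_zero, mul_zero]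

/-- one parameter group of the real part -/
noncomputable def UU (N : 𝔸) (w : ℝ) : 𝔸 :=
  cfc (fun z : ℂ => Complex.exp ((2 * Real.pi * w * z.re : ℝ) * Complex.I)) N

lemma UU_dec (hfin : ∀ a : 𝔸, (spectrum ℂ a).Finite) (N : 𝔸) (w : ℝ) :
    UU N w = ∑ α ∈ (hfin N).toFinset,
      Complex.exp ((2 * Real.pi * w * α.re : ℝ) * Complex.I) • P N α :=
  dec hfin _ N

lemma UU_cont (hfin : ∀ a : 𝔸, (spectrum ℂ a).Finite) (N : 𝔸) : Continuous (UU N) := by
  have : UU N = fun w => ∑ α ∈ (hfin N).toFinset,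
      Complex.exp ((2 * Real.pi * w * α.re : ℝ) * Complex.I) • P N α := by
    funext w; exact UU_dec hfin N w
  rw [this]
  apply continuous_finsetSum
  intro α _
  apply Continuous.smul _ continuous_const
  fun_prop

lemma UU_norm (N : 𝔸) (w : ℝ) : ‖UU N w‖ ≤ 1 := by
  apply fnorm _ _ zero_le_one
  intro z
  rw [Complex.norm_exp_ofReal_mul_I]

lemma UU_zero (N : 𝔸) (hN : IsStarNormal N) : UU N 0 = 1 := by
  rw [UU, ← fone N hN]
  congr 1
  funext z
  simp

lemma UU_comm (hN : 𝔸) (f : ℂ → ℂ) (w : ℝ) : Commute (UU hN w) (cfc f hN) := fcomm _ _ _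

lemma UU_deriv (hfin : ∀ a : 𝔸, (spectrum ℂ a).Finite) (N : 𝔸) (w : ℝ) :
    HasDerivAt (UU N) ((2 * Real.pi * Complex.I : ℂ) • (HH N * UU N w)) w := by
  have h0 : UU N = fun w => ∑ α ∈ (hfin N).toFinset,
      Complex.exp ((2 * Real.pi * w * α.re : ℝ) * Complex.I) • P N α := by
    funext w; exact UU_dec hfin N w
  have h1 : (2 * Real.pi * Complex.I : ℂ) • (HH N * UU N w) = ∑ α ∈ (hfin N).toFinset,
      (Complex.exp ((2 * Real.pi * w * α.re : ℝ) * Complex.I) *
        (2 * Real.pi * α.re * Complex.I)) • P N α := by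
    rw [HH, UU, ← fmul hfin, ← fsmul hfin, dec hfin]
    apply Finset.sum_congr rfl
    intro α _
    congr 1
    ring
  rw [h1]
  conv => rw [h0]
  apply HasDerivAt.fun_sum
  intro α _
  apply HasDerivAt.smul_const
  have h2 : HasDerivAt (fun w : ℝ => ((2 * Real.pi * w * α.re : ℝ) : ℂ) * Complex.I)
      (2 * Real.pi * α.re * Complex.I) w := by
    have h3 : HasDerivAt (fun w : ℝ => 2 * Real.pi * w * α.re) (2 * Real.pi * α.re) w := by
      have := ((hasDerivAt_id w).const_mul (2 * Real.pi)).mul_const α.re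
      simpa using this
    have h4 := h3.ofReal_comp.mul_const Complex.I
    push_cast at h4 ⊢
    exact h4
  exact h2.cexp

lemma VV_bound (hfin : ∀ a : 𝔸, (spectrum ℂ a).Finite) (A B : 𝔸) (hA : IsStarNormal A)
    (hB : IsStarNormal B) (w : ℝ) :
    ‖UU B (-w) * UU A w - 1‖ ≤ 2 * Real.pi * ‖B - A‖ * |w| := by
  have hd : ∀ x : ℝ, HasDerivAt (fun w => UU B (-w) * UU A w)
      ((2 * Real.pi * Complex.I : ℂ) • (UU B (-x) * (HH A - HH B) * UU A x)) x := by
    intro x
    have h1 : HasDerivAt (fun w => UU B (-w))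
        (-((2 * Real.pi * Complex.I : ℂ) • (HH B * UU B (-x)))) x := by
      have := (UU_deriv hfin B (-x)).scomp x (hasDerivAt_neg x)
      rw [neg_one_smul] at this
      exact this
    have h2 := h1.mul (UU_deriv hfin A x)
    have e : (2 * Real.pi * Complex.I : ℂ) • (UU B (-x) * (HH A - HH B) * UU A x) =
        -((2 * Real.pi * Complex.I : ℂ) • (HH B * UU B (-x))) * UU A x +
          UU B (-x) * ((2 * Real.pi * Complex.I : ℂ) • (HH A * UU A x)) := ?_
    · rw [e]; exact h2
    have hc : HH B * UU B (-x) = UU B (-x) * HH B := (fcomm _ _ B).eq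
    rw [hc, mul_smul_comm, neg_mul, smul_mul_assoc, ← smul_neg, ← smul_add]
    congr 1
    noncomm_ring
  have := Convex.norm_image_sub_le_of_norm_hasDerivWithin_le
    (f := fun w => UU B (-w) * UU A w) (s := Set.univ) (C := 2 * Real.pi * ‖B - A‖)
    (x := (0 : ℝ)) (y := w) (fun x _ => (hd x).hasDerivWithinAt) (by
      intro x _
      rw [norm_smul]
      have e1 : ‖(2 * Real.pi * Complex.I : ℂ)‖ = 2 * Real.pi := by
        simp [abs_of_pos Real.pi_pos]
      rw [e1]
      apply mul_le_mul_of_nonneg_left _ (by positivity)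
      calc ‖UU B (-x) * (HH A - HH B) * UU A x‖
          ≤ ‖UU B (-x) * (HH A - HH B)‖ * ‖UU A x‖ := norm_mul_le _ _
        _ ≤ (‖UU B (-x)‖ * ‖HH A - HH B‖) * ‖UU A x‖ := by
            gcongr; exact norm_mul_le _ _
        _ ≤ (1 * ‖HH A - HH B‖) * 1 := by
            gcongr
            · exact UU_norm _ _
            · exact UU_norm _ _
        _ = ‖HH B - HH A‖ := by rw [norm_sub_rev]; ring
        _ ≤ ‖B - A‖ := HH_sub_le hfin A B hA hB)
    convex_univ (Set.mem_univ _) (Set.mem_univ _)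
  simp only [neg_zero, sub_zero] at this
  rw [UU_zero A hA, UU_zero B hB, mul_one, Real.norm_eq_abs] at this
  exact this

/-- integral representation -/
lemma XX_int (hfin : ∀ a : 𝔸, (spectrum ℂ a).Finite) (g φ : ℝ → ℂ) (hg : Integrable g)
    (hφ : ∀ t, φ t = ∫ w, g w * Complex.exp ((2 * Real.pi * w * t : ℝ) * Complex.I))
    (A B : 𝔸) : XX hfin φ A B = ∫ w, g w • (UU B (-w) * UU A w) := by
  have h1 : ∀ w, g w • (UU B (-w) * UU A w) =
      ∑ β ∈ (hfin B).toFinset, ∑ α ∈ (hfin A).toFinset,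
        (g w * Complex.exp ((2 * Real.pi * w * (α.re - β.re) : ℝ) * Complex.I)) •
          (P B β * P A α) := by
    intro w
    rw [UU_dec hfin B, UU_dec hfin A, Finset.sum_mul_sum, Finset.smul_sum]
    apply Finset.sum_congr rfl
    intro β _
    rw [Finset.smul_sum]
    apply Finset.sum_congr rfl
    intro α _
    rw [smul_mul_smul_comm, smul_smul, ← Complex.exp_add]
    congr 3
    push_cast
    ring
  have hint : ∀ t : ℝ, Integrable
      (fun w => g w * Complex.exp ((2 * Real.pi * w * t : ℝ) * Complex.I)) := by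
    intro t
    apply hg.mono
    · apply hg.aestronglyMeasurable.mul
      apply Continuous.aestronglyMeasurable
      fun_prop
    · filter_upwards with w
      rw [norm_mul, Complex.norm_exp_ofReal_mul_I, mul_one]
  simp_rw [h1]
  rw [integral_finsetSum]
  · rw [XX]
    apply Finset.sum_congr rfl
    intro β _
    rw [integral_finsetSum]
    · apply Finset.sum_congr rfl
      intro α _
      rw [integral_smul_const, hφ]
    · intro α _
      exact (hint _).smul_const _
  · intro β _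
    apply integrable_finsetSum
    intro α _
    exact (hint _).smul_const _

lemma int_UMU (hfin : ∀ a : 𝔸, (spectrum ℂ a).Finite) (g : ℝ → ℂ) (hg : Integrable g)
    (A B M : 𝔸) : Integrable (fun w => g w • (UU B (-w) * M * UU A w)) := by
  have hc : Continuous (fun w => UU B (-w) * M * UU A w) :=
    (((UU_cont hfin B).comp continuous_neg).mul continuous_const).mul (UU_cont hfin A)
  apply (hg.norm.mul_const ‖M‖).mono'
  · exact hg.aestronglyMeasurable.smul hc.aestronglyMeasurable
  · filter_upwards with w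
    rw [norm_smul]
    gcongr
    calc ‖UU B (-w) * M * UU A w‖ ≤ ‖UU B (-w) * M‖ * ‖UU A w‖ := norm_mul_le _ _
      _ ≤ (‖UU B (-w)‖ * ‖M‖) * ‖UU A w‖ := by gcongr; exact norm_mul_le _ _
      _ ≤ (1 * ‖M‖) * 1 := by
          gcongr
          · exact UU_norm _ _
          · exact UU_norm _ _
      _ = ‖M‖ := by ring

/-- commutator estimate for the smoothed intertwiner -/
lemma XX_comm (hfin : ∀ a : 𝔸, (spectrum ℂ a).Finite) (g φ : ℝ → ℂ) (hg : Integrable g)
    (hφ : ∀ t, φ t = ∫ w, g w * Complex.exp ((2 * Real.pi * w * t : ℝ) * Complex.I))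
    (A B : 𝔸) (a b : 𝔸) (ha : ∀ w, Commute (UU A w) a) (hb : ∀ w, Commute (UU B w) b) :
    ‖b * XX hfin φ A B - XX hfin φ A B * a‖ ≤ (∫ w, ‖g w‖) * ‖b - a‖ := by
  rw [XX_int hfin g φ hg hφ]
  have i1 : Integrable (fun w => g w • (UU B (-w) * UU A w)) := by
    have := int_UMU hfin g hg A B 1
    simpa using this
  have e1 : b * (∫ w, g w • (UU B (-w) * UU A w)) - (∫ w, g w • (UU B (-w) * UU A w)) * a =
      ∫ w, g w • (UU B (-w) * (b - a) * UU A w) := by
    rw [← integral_const_mul_of_integrable i1, ← integral_mul_const_of_integrable i1,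
      ← integral_sub (i1.const_mul _) (i1.mul_const _)]
    apply integral_congr_ae
    filter_upwards with w
    have h1 := (hb (-w)).eq
    have h2 := (ha w).eq
    rw [mul_smul_comm, smul_mul_assoc, ← smul_sub]
    congr 1
    calc b * (UU B (-w) * UU A w) - UU B (-w) * UU A w * a
        = (b * UU B (-w)) * UU A w - UU B (-w) * (UU A w * a) := by noncomm_ring
      _ = (UU B (-w) * b) * UU A w - UU B (-w) * (a * UU A w) := by rw [h1, h2]
      _ = UU B (-w) * (b - a) * UU A w := by noncomm_ring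
  rw [e1]
  have := norm_integral_le_of_norm_le (μ := volume) (f := fun w => g w • (UU B (-w) * (b - a) * UU A w))
    (g := fun w => ‖g w‖ * ‖b - a‖) (hg.norm.mul_const _) (by
      filter_upwards with w
      rw [norm_smul]
      gcongr
      calc ‖UU B (-w) * (b - a) * UU A w‖ ≤ ‖UU B (-w) * (b - a)‖ * ‖UU A w‖ := norm_mul_le _ _
        _ ≤ (‖UU B (-w)‖ * ‖b - a‖) * ‖UU A w‖ := by gcongr; exact norm_mul_le _ _
        _ ≤ (1 * ‖b - a‖) * 1 := by
            gcongr
            · exact UU_norm _ _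
            · exact UU_norm _ _
        _ = ‖b - a‖ := by ring)
  rw [integral_mul_const] at this
  exact this

/-- the smoothed intertwiner is near `1` -/
lemma XX_near (hfin : ∀ a : 𝔸, (spectrum ℂ a).Finite) (g φ : ℝ → ℂ) (hg : Integrable g)
    (hg1 : Integrable (fun w => |w| * ‖g w‖))
    (hφ : ∀ t, φ t = ∫ w, g w * Complex.exp ((2 * Real.pi * w * t : ℝ) * Complex.I))
    (hφ0 : φ 0 = 1)
    (A B : 𝔸) (hA : IsStarNormal A) (hB : IsStarNormal B) :
    ‖XX hfin φ A B - 1‖ ≤ (2 * Real.pi * ∫ w, |w| * ‖g w‖) * ‖B - A‖ := by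
  rw [XX_int hfin g φ hg hφ]
  have i1 : Integrable (fun w => g w • (UU B (-w) * UU A w)) := by
    have := int_UMU hfin g hg A B 1
    simpa using this
  have i2 : Integrable (fun w => g w • (1 : 𝔸)) := hg.smul_const _
  have e0 : ∫ w, g w = 1 := by
    have := hφ 0
    rw [hφ0] at this
    rw [this]
    apply integral_congr_ae
    filter_upwards with w
    simp
  have e1 : (∫ w, g w • (UU B (-w) * UU A w)) - 1 =
      ∫ w, g w • (UU B (-w) * UU A w - 1) := by
    have : (1 : 𝔸) = ∫ w, g w • (1 : 𝔸) := by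
      rw [integral_smul_const, e0, one_smul]
    conv_lhs => rw [this]
    rw [← integral_sub i1 i2]
    apply integral_congr_ae
    filter_upwards with w
    rw [← smul_sub]
  rw [e1]
  have := norm_integral_le_of_norm_le (μ := volume) (f := fun w => g w • (UU B (-w) * UU A w - 1))
    (g := fun w => (2 * Real.pi * ‖B - A‖) * (|w| * ‖g w‖)) (hg1.const_mul _) (by
      filter_upwards with w
      rw [norm_smul]
      have := VV_bound hfin A B hA hB w
      have h0 := norm_nonneg (g w)
      nlinarith)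
  rw [integral_const_mul] at this
  refine this.trans (le_of_eq ?_)
  ring

end Pool.Agent.X194.NP
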