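import Pool.Agent.X194.NP.Root

namespace Pool.Agent.X194.NP

variable {𝔸 : Type*} [CStarAlgebra 𝔸] [Nontrivial 𝔸]

lemma norm_le_of_near {x y : 𝔸} {a b : ℝ} (h : ‖x - y‖ ≤ a) (hy : ‖y‖ ≤ b) : ‖x‖ ≤ a + b := by
  have : x = (x - y) + y := by abel
  rw [this]
  exact norm_add_le_of_le h hy

/-- sign function near a symmetry -/
theorem sign_lemma (S J : 𝔸) (hS : IsSelfAdjoint S) (hJ : J * J = 1) (hJn : ‖J‖ ≤ 1)
    (h : ‖S - J‖ ≤ 9 / 1000) :
    ∃ Jh : 𝔸, IsSelfAdjoint Jh ∧ Jh * Jh = 1 ∧ ‖Jh - J‖ ≤ 30 / 1000 ∧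
      (∀ Z, Commute S Z → Commute Jh Z) ∧ ∀ Z, ‖Z * Jh - Jh * Z‖ ≤ 4 * ‖Z * S - S * Z‖ := by
  have hSn : ‖S‖ ≤ 1009 / 1000 := (norm_le_of_near h hJn).trans (by norm_num)
  set T := S * S with hT
  have hT1 : ‖T - 1‖ ≤ 19 / 1000 := by
    have e : T - 1 = S * (S - J) + (S - J) * J := by
      rw [hT, ← hJ]; noncomm_ring
    rw [e]
    refine (norm_add_le_of_le (norm_mul_le_of_le hSn h) (norm_mul_le_of_le h hJn)).trans ?_
    norm_num
  have hTsa : IsSelfAdjoint T := by
    rw [isSelfAdjoint_iff, hT, star_mul, hS.star_eq]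
  obtain ⟨G, hG, hGT, hcom, hGn, hZ⟩ := root T hTsa (hT1.trans (by norm_num))
  have hGn1 : ‖G - 1‖ ≤ 19 / 1000 := hGn.trans hT1
  have hGn2 : ‖G‖ ≤ 102 / 100 := (norm_le_of_near hGn1 (norm_one.le)).trans (by norm_num)
  have hTS : Commute T S := by
    rw [hT]; exact (Commute.refl S).mul_left (Commute.refl S)
  have hGS : G * S = S * G := (hcom S hTS).eq
  refine ⟨S * G, ?_, ?_, ?_, ?_, ?_⟩
  · rw [isSelfAdjoint_iff, star_mul, hS.star_eq, hG.star_eq, hGS]
  · calc S * G * (S * G) = S * (G * S) * G := by noncomm_ring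
      _ = S * (S * G) * G := by rw [hGS]
      _ = T * (G * G) := by rw [hT]; noncomm_ring
      _ = (G * G) * T := by
          have h1 := (hcom T (Commute.refl T)).eq
          calc T * (G * G) = (T * G) * G := by noncomm_ring
            _ = (G * T) * G := by rw [h1]
            _ = G * (T * G) := by noncomm_ring
            _ = G * (G * T) := by rw [h1]
            _ = (G * G) * T := by noncomm_ring
      _ = 1 := hGT
  · have e : S * G - J = S * (G - 1) + (S - J) := by noncomm_ring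
    rw [e]
    refine (norm_add_le_of_le (norm_mul_le_of_le hSn hGn1) h).trans ?_
    norm_num
  · intro Z hZ'
    have h1 : Commute T Z := by rw [hT]; exact hZ'.mul_left hZ'
    exact hZ'.mul_left (hcom Z h1)
  · intro Z
    set x := ‖Z * S - S * Z‖ with hx
    have hx0 : 0 ≤ x := norm_nonneg _
    have h1 : ‖Z * T - T * Z‖ ≤ 2 * (1009 / 1000) * x := by
      have e : Z * T - T * Z = (Z * S - S * Z) * S + S * (Z * S - S * Z) := by
        rw [hT]; noncomm_ring
      rw [e]
      refine (norm_add_le_of_le (norm_mul_le_of_le le_rfl hSn)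
        (norm_mul_le_of_le hSn le_rfl)).trans (le_of_eq ?_)
      rw [← hx]; ring
    have h2 := (hZ Z).trans h1
    have e : Z * (S * G) - S * G * Z = (Z * S - S * Z) * G + S * (Z * G - G * Z) := by
      noncomm_ring
    rw [e]
    refine (norm_add_le_of_le (norm_mul_le_of_le le_rfl hGn2)
      (norm_mul_le_of_le hSn h2)).trans ?_
    rw [← hx]
    nlinarith

/-- unitary part of an element near `1` -/
theorem polar_lemma (Y : 𝔸) (h : ‖Y - 1‖ ≤ 18 / 1000) :
    ∃ W : 𝔸, W ∈ unitary 𝔸 ∧ ‖W - 1‖ ≤ 1 / 8 ∧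
      (∀ M Mh : 𝔸, IsSelfAdjoint M → IsSelfAdjoint Mh → Mh * Y = Y * M → Mh * W = W * M) ∧
      ∀ a b : 𝔸, IsSelfAdjoint a → IsSelfAdjoint b → ‖b * W - W * a‖ ≤ 4 * ‖b * Y - Y * a‖ := by
  have hYn : ‖Y‖ ≤ 1018 / 1000 := (norm_le_of_near h (norm_one.le)).trans (by norm_num)
  have hYs : ‖star Y‖ ≤ 1018 / 1000 := by rw [norm_star]; exact hYn
  have hYs1 : ‖star Y - 1‖ ≤ 18 / 1000 := by
    have : star Y - 1 = star (Y - 1) := by rw [star_sub, star_one]
    rw [this, norm_star]; exact h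
  set T := star Y * Y with hT
  have hT1 : ‖T - 1‖ ≤ 37 / 1000 := by
    have e : T - 1 = (star Y - 1) * Y + (Y - 1) := by rw [hT]; noncomm_ring
    rw [e]
    refine (norm_add_le_of_le (norm_mul_le_of_le hYs1 hYn) h).trans ?_
    norm_num
  have hTsa : IsSelfAdjoint T := IsSelfAdjoint.star_mul_self Y
  obtain ⟨G, hG, hGT, hcom, hGn, hZ⟩ := root T hTsa (hT1.trans (by norm_num))
  have hGn1 : ‖G - 1‖ ≤ 37 / 1000 := hGn.trans hT1
  have hGn2 : ‖G‖ ≤ 104 / 100 := (norm_le_of_near hGn1 (norm_one.le)).trans (by norm_num)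
  have hGTc : G * T = T * G := (hcom T (Commute.refl T)).eq
  have hW1 : ‖Y * G - 1‖ ≤ 1 / 8 := by
    have e : Y * G - 1 = Y * (G - 1) + (Y - 1) := by noncomm_ring
    rw [e]
    refine (norm_add_le_of_le (norm_mul_le_of_le hYn hGn1) h).trans ?_
    norm_num
  have hWW : star (Y * G) * (Y * G) = 1 := by
    rw [star_mul, hG.star_eq]
    calc G * star Y * (Y * G) = G * (T * G) := by rw [hT]; noncomm_ring
      _ = G * (G * T) := by rw [hGTc]
      _ = G * G * T := by noncomm_ring
      _ = 1 := hGT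
  have hunit : IsUnit (Y * G) := by
    have h1 : ‖1 - Y * G‖ < 1 := by rw [norm_sub_rev]; linarith
    have h2 := isUnit_one_sub_of_norm_lt_one h1
    simpa using h2
  have hWW' : (Y * G) * star (Y * G) = 1 := by
    apply hunit.mul_right_cancel
    rw [mul_assoc, hWW, one_mul, mul_one]
  refine ⟨Y * G, Unitary.mem_iff.2 ⟨hWW, hWW'⟩, hW1, ?_, ?_⟩
  · intro M Mh hM hMh hi
    have h1 : star Y * Mh = M * star Y := by
      have := congrArg star hi
      rwa [star_mul, star_mul, hM.star_eq, hMh.star_eq] at this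
    have h2 : Commute T M := by
      change T * M = M * T
      calc T * M = star Y * (Y * M) := by rw [hT]; noncomm_ring
        _ = star Y * (Mh * Y) := by rw [hi]
        _ = (star Y * Mh) * Y := by noncomm_ring
        _ = M * star Y * Y := by rw [h1]
        _ = M * T := by rw [hT]; noncomm_ring
    have h3 := (hcom M h2).eq
    calc Mh * (Y * G) = (Mh * Y) * G := by noncomm_ring
      _ = Y * (M * G) := by rw [hi]; noncomm_ring
      _ = Y * (G * M) := by rw [h3]
      _ = Y * G * M := by noncomm_ring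
  · intro a b ha hb
    set x := ‖b * Y - Y * a‖ with hx
    have hx0 : 0 ≤ x := norm_nonneg _
    have hx2 : ‖a * star Y - star Y * b‖ = x := by
      have : a * star Y - star Y * b = -star (b * Y - Y * a) := by
        rw [star_sub, star_mul, star_mul, ha.star_eq, hb.star_eq]; abel
      rw [this, norm_neg, norm_star]
    have h1 : ‖a * T - T * a‖ ≤ 2 * (1018 / 1000) * x := by
      have e : a * T - T * a = (a * star Y - star Y * b) * Y + star Y * (b * Y - Y * a) := by
        rw [hT]; noncomm_ring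
      rw [e]
      refine (norm_add_le_of_le (norm_mul_le_of_le hx2.le hYn)
        (norm_mul_le_of_le hYs le_rfl)).trans (le_of_eq ?_)
      rw [← hx]; ring
    have h2 := (hZ a).trans h1
    have e : b * (Y * G) - Y * G * a = (b * Y - Y * a) * G + Y * (a * G - G * a) := by
      noncomm_ring
    rw [e]
    refine (norm_add_le_of_le (norm_mul_le_of_le le_rfl hGn2)
      (norm_mul_le_of_le hYn h2)).trans ?_
    rw [← hx]
    nlinarith

end Pool.Agent.X194.NP
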