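import Pool.Agent.X194.NP.Inter
import Pool.Agent.X194.NP.Polar
import Pool.Agent.X194.NP.Conj

namespace Pool.Agent.X194.NP

/-! ### the coarse functions -/

noncomputable def sg (k : ℤ) : ℂ := if Even k then 1 else -1

lemma sg_mul_self (k : ℤ) : sg k * sg k = 1 := by
  unfold sg; split_ifs <;> simp

lemma sg_pred (k : ℤ) : sg (k - 1) = -sg k := by
  unfold sg
  by_cases h : Even k
  · have h2 : ¬ Even (k - 1) := by
      rw [Int.even_sub_one]; simpa using h
    rw [if_pos h, if_neg h2]
  · have h2 : Even (k - 1) := by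
      rw [Int.even_sub_one]; exact h
    rw [if_neg h, if_pos h2]; ring

lemma star_sg (k : ℤ) : star (sg k) = sg k := by
  unfold sg; split_ifs <;> simp

lemma norm_sg (k : ℤ) : ‖sg k‖ = 1 := by
  unfold sg; split_ifs <;> simp

noncomputable def fj (z : ℂ) : ℂ := sg ⌊z.re / 4⌋
noncomputable def fm (z : ℂ) : ℂ := 4 * ((⌊z.re / 4⌋ : ℤ) : ℂ) + 2
noncomputable def fμ (z : ℂ) : ℂ := 4 * ((⌊(z.re + 1) / 4⌋ : ℤ) : ℂ)
noncomputable def fν (z : ℂ) : ℂ := 2 * sg ⌊(z.re + 1) / 4⌋
open Classical in
noncomputable def fq (z : ℂ) : ℂ := if z.re < 4 * ((⌊(z.re + 1) / 4⌋ : ℤ) : ℝ) + 1 then 1 else 0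
noncomputable def fp (z : ℂ) : ℂ := 1 - fq z

lemma floor_bounds (x : ℝ) : 4 * ((⌊x / 4⌋ : ℤ) : ℝ) ≤ x ∧ x < 4 * ((⌊x / 4⌋ : ℤ) : ℝ) + 4 := by
  have h1 := Int.floor_le (x / 4)
  have h2 := Int.lt_floor_add_one (x / 4)
  constructor <;> linarith

lemma R1 (α β : ℂ) (h : |α.re - β.re| < 1) : fp β * fj α = fp β * fj β * 1 := by
  unfold fp fq fj
  have hb := floor_bounds (β.re + 1)
  set k := ⌊(β.re + 1) / 4⌋ with hk
  have hh := abs_lt.1 h
  split_ifs with hc
  · simp
  · push Not at hc
    have e1 : ⌊α.re / 4⌋ = k := by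
      rw [Int.floor_eq_iff]; constructor <;> linarith
    have e2 : ⌊β.re / 4⌋ = k := by
      rw [Int.floor_eq_iff]; constructor <;> linarith
    rw [e1, e2]; ring

lemma R2 (H : ℤ → ℂ) (α β : ℂ) (h : |α.re - β.re| < 1) :
    (H ⌊(β.re + 1) / 4⌋ * fq β) * 1 = fq β * H ⌊(α.re + 2) / 4⌋ := by
  unfold fq
  have hb := floor_bounds (β.re + 1)
  set k := ⌊(β.re + 1) / 4⌋ with hk
  have hh := abs_lt.1 h
  split_ifs with hc
  · have e1 : ⌊(α.re + 2) / 4⌋ = k := by
      rw [Int.floor_eq_iff]; constructor <;> linarith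
    rw [e1]; ring
  · simp

lemma R3 (α β : ℂ) (h : |α.re - β.re| < 1) : fμ β * 1 + fν β * fj α = 1 * fm α := by
  unfold fμ fν fj fm
  have hb := floor_bounds (β.re + 1)
  set k := ⌊(β.re + 1) / 4⌋ with hk
  have hh := abs_lt.1 h
  rcases lt_or_ge α.re (4 * (k : ℝ)) with hc | hc
  · have e1 : ⌊α.re / 4⌋ = k - 1 := by
      rw [Int.floor_eq_iff]; push_cast; constructor <;> linarith
    rw [e1, sg_pred]
    push_cast
    linear_combination (-2 : ℂ) * sg_mul_self k
  · have e1 : ⌊α.re / 4⌋ = k := by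
      rw [Int.floor_eq_iff]; constructor <;> linarith
    rw [e1]
    linear_combination (2 : ℂ) * sg_mul_self k

lemma norm_fm (z : ℂ) : ‖fm z - (z.re : ℂ)‖ ≤ 2 := by
  unfold fm
  have hb := floor_bounds z.re
  have : (4 * ((⌊z.re / 4⌋ : ℤ) : ℂ) + 2 - (z.re : ℂ)) =
      ((4 * ((⌊z.re / 4⌋ : ℤ) : ℝ) + 2 - z.re : ℝ) : ℂ) := by push_cast; ring
  rw [this, Complex.norm_real, Real.norm_eq_abs, abs_le]
  constructor <;> linarith

lemma norm_fμ (z : ℂ) : ‖fμ z - (z.re : ℂ)‖ ≤ 3 := by
  unfold fμ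
  have hb := floor_bounds (z.re + 1)
  have : (4 * ((⌊(z.re + 1) / 4⌋ : ℤ) : ℂ) - (z.re : ℂ)) =
      ((4 * ((⌊(z.re + 1) / 4⌋ : ℤ) : ℝ) - z.re : ℝ) : ℂ) := by push_cast; ring
  rw [this, Complex.norm_real, Real.norm_eq_abs, abs_le]
  constructor <;> linarith

lemma norm_fν (z : ℂ) : ‖fν z‖ ≤ 2 := by
  unfold fν
  rw [norm_mul, norm_sg]; norm_num

lemma norm_fq (z : ℂ) : ‖fq z‖ ≤ 1 := by
  unfold fq; split_ifs <;> simp

lemma norm_fp (z : ℂ) : ‖fp z‖ ≤ 1 := by
  unfold fp fq; split_ifs <;> simp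

lemma star_fq (z : ℂ) : star (fq z) = fq z := by
  unfold fq; split_ifs <;> simp

lemma star_fp (z : ℂ) : star (fp z) = fp z := by
  unfold fp fq; split_ifs <;> simp

lemma star_fm (z : ℂ) : star (fm z) = fm z := by
  unfold fm; simp

lemma star_fμ (z : ℂ) : star (fμ z) = fμ z := by
  unfold fμ; simp

lemma star_fν (z : ℂ) : star (fν z) = fν z := by
  unfold fν; rw [star_mul', star_sg]; simp

variable {𝔸 : Type*} [CStarAlgebra 𝔸]

lemma prop_L3 (hfin : ∀ a : 𝔸, (spectrum ℂ a).Finite) (φ : ℝ → ℂ)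
    (hφ : ∀ t, 1 ≤ |t| → φ t = 0) (A B : 𝔸) (a₁ a₂ a₃ b₁ b₂ b₃ : ℂ → ℂ)
    (h : ∀ α β : ℂ, |α.re - β.re| < 1 → b₁ β * a₁ α + b₂ β * a₂ α = b₃ β * a₃ α) :
    cfc b₁ B * XX hfin φ A B * cfc a₁ A + cfc b₂ B * XX hfin φ A B * cfc a₂ A =
      cfc b₃ B * XX hfin φ A B * cfc a₃ A := by
  rw [F_XX_F, F_XX_F, F_XX_F, ← Finset.sum_add_distrib]
  apply Finset.sum_congr rfl
  intro β _
  rw [← Finset.sum_add_distrib]
  apply Finset.sum_congr rfl
  intro α _
  rw [← add_smul, ← add_mul]
  by_cases hc : |α.re - β.re| < 1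
  · rw [h α β hc]
  · rw [hφ _ (not_lt.1 hc), mul_zero, mul_zero]

/-- the core construction -/
theorem core_path [Nontrivial 𝔸] (hfin : ∀ a : 𝔸, (spectrum ℂ a).Finite) (φ : ℝ → ℂ)
    (hφ : ∀ t, 1 ≤ |t| → φ t = 0) (A B X : 𝔸) (hA : IsStarNormal A) (hB : IsStarNormal B)
    (hXd : X = XX hfin φ A B) (hX : ‖X - 1‖ ≤ 1 / 1000)
    (hK : ‖KK B * X - X * KK A‖ ≤ 1) (hAB : ‖B - A‖ ≤ 1) : Conn 10000 A B := by
  set a := KK A with ha
  set b := KK B with hb
  have hasa : IsSelfAdjoint a := KK_sa A
  have hbsa : IsSelfAdjoint b := KK_sa B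
  have hba : ‖b - a‖ ≤ 1 := (KK_sub_le hfin A B hA hB).trans hAB
  have hHH : ‖HH B - HH A‖ ≤ 1 := (HH_sub_le hfin A B hA hB).trans hAB
  set J := cfc fj A with hJ
  set M := cfc fm A with hM
  set jB := cfc fj B with hjB
  set q := cfc fq B with hq
  set p := cfc fp B with hp
  set μB := cfc fμ B with hμB
  set νB := cfc fν B with hνB
  have hJJ : J * J = 1 := by
    rw [hJ, ← fmul hfin, ← fone A hA]; congr 1; funext z; exact sg_mul_self _
  have hJsa : IsSelfAdjoint J := fsa _ _ (fun z => star_sg _)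
  have hjBsa : IsSelfAdjoint jB := fsa _ _ (fun z => star_sg _)
  have hqsa : IsSelfAdjoint q := fsa _ _ star_fq
  have hpsa : IsSelfAdjoint p := fsa _ _ star_fp
  have hMsa : IsSelfAdjoint M := fsa _ _ star_fm
  have hμsa : IsSelfAdjoint μB := fsa _ _ star_fμ
  have hνsa : IsSelfAdjoint νB := fsa _ _ star_fν
  have hJn : ‖J‖ ≤ 1 := fnorm _ _ zero_le_one (fun z => (norm_sg _).le)
  have hjBn : ‖jB‖ ≤ 1 := fnorm _ _ zero_le_one (fun z => (norm_sg _).le)
  have hqn : ‖q‖ ≤ 1 := fnorm _ _ zero_le_one norm_fq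
  have hpn : ‖p‖ ≤ 1 := fnorm _ _ zero_le_one norm_fp
  have hνn : ‖νB‖ ≤ 2 := fnorm _ _ (by norm_num) norm_fν
  have hqp1 : q + p = 1 := by
    rw [hq, hp, ← fadd hfin, ← fone B hB]; congr 1; funext z; unfold fp; ring
  have hqp : q * p = 0 := by
    rw [hq, hp, ← fmul hfin]
    have : (fun z => fq z * fp z) = fun _ => (0 : ℂ) := by
      funext z; unfold fp fq; split_ifs <;> simp
    rw [this]; simp
  have hXn : ‖X‖ ≤ 1001 / 1000 := (norm_le_of_near hX norm_one.le).trans (by norm_num)
  have hXs : ‖star X‖ ≤ 1001 / 1000 := by rw [norm_star]; exact hXn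
  have hXs1 : ‖star X - 1‖ ≤ 1 / 1000 := by
    have : star X - 1 = star (X - 1) := by rw [star_sub, star_one]
    rw [this, norm_star]; exact hX
  -- commutation among functions of `B`, `A`
  have cpj : p * jB = jB * p := (fcomm _ _ B).eq
  have cqj : q * jB = jB * q := (fcomm _ _ B).eq
  have cJa : J * a = a * J := (fcomm _ _ A).eq
  have cMJ : M * J = J * M := (fcomm _ _ A).eq
  have cqb : q * b = b * q := (fcomm _ _ B).eq
  have cpjb : (p * jB) * b = b * (p * jB) :=
    ((fcomm fp (fun z => (z.im : ℂ)) B).mul_left (fcomm fj (fun z => (z.im : ℂ)) B)).eq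
  -- the propagation relations
  have rel1 : p * X * J = p * jB * X := by
    have := prop_L hfin φ hφ A B fj fp (fun _ => 1) (fun z => fp z * fj z)
      (fun α β h => R1 α β h)
    rw [fmul hfin, fone A hA, mul_one, ← hXd] at this
    exact this
  set S := X * J * star X with hS
  have hSsa : IsSelfAdjoint S := by
    rw [isSelfAdjoint_iff, hS, star_mul, star_mul, star_star, hJsa.star_eq]
    noncomm_ring
  set r := X * star X - 1 with hr
  have hrn : ‖r‖ ≤ 21 / 10000 := by
    have e : r = (X - 1) * star X + (star X - 1) := by rw [hr]; noncomm_ring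
    rw [e]
    exact (norm_add_le_of_le (norm_mul_le_of_le hX hXs) hXs1).trans (by norm_num)
  have hpS : p * S = p * jB * (X * star X) := by
    calc p * S = (p * X * J) * star X := by rw [hS]; noncomm_ring
      _ = (p * jB * X) * star X := by rw [rel1]
      _ = _ := by noncomm_ring
  have hSp : S * p = (X * star X) * (jB * p) := by
    have := congrArg star hpS
    rw [star_mul p S, star_mul (p * jB) (X * star X), star_mul X (star X), star_mul p jB,
      star_star, hSsa.star_eq, hpsa.star_eq, hjBsa.star_eq] at this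
    exact this
  set S' := q * S * q + p * jB with hS'
  have hS'sa : IsSelfAdjoint S' := by
    rw [isSelfAdjoint_iff, hS', star_add, star_mul (q * S) q, star_mul q S, star_mul p jB,
      hSsa.star_eq, hqsa.star_eq, hpsa.star_eq, hjBsa.star_eq, cpj, ← mul_assoc q S q]
  have hSS' : ‖S - S'‖ ≤ 42 / 10000 := by
    have e : S - S' = q * r * (jB * p) + p * jB * r := by
      have e1 : S - S' = q * (S * p) + (p * S - p * jB) := by
        have : S = (q + p) * S * (q + p) := by rw [hqp1]; noncomm_ring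
        calc S - S' = (q + p) * S * (q + p) - S' := by rw [← this]
          _ = q * (S * p) + p * S * (q + p) - p * jB := by rw [hS']; noncomm_ring
          _ = _ := by rw [hqp1]; noncomm_ring
      have e2 : q * (jB * p) = 0 := by
        rw [← mul_assoc, cqj, mul_assoc, hqp, mul_zero]
      rw [e1, hSp, hpS, hr]
      calc q * (X * star X * (jB * p)) + (p * jB * (X * star X) - p * jB)
          = q * (X * star X - 1) * (jB * p) + q * (jB * p) + p * jB * (X * star X - 1) := by
            noncomm_ring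
        _ = _ := by rw [e2, add_zero]
    rw [e]
    exact (norm_add_le_of_le (norm_mul_le_of_le (norm_mul_le_of_le hqn hrn)
      (norm_mul_le_of_le hjBn hpn)) (norm_mul_le_of_le (norm_mul_le_of_le hpn hjBn) hrn)).trans
      (by norm_num)
  have hSJ : ‖S - J‖ ≤ 21 / 10000 := by
    have e : S - J = (X - 1) * J * star X + J * (star X - 1) := by rw [hS]; noncomm_ring
    rw [e]
    exact (norm_add_le_of_le (norm_mul_le_of_le (norm_mul_le_of_le hX hJn) hXs)
      (norm_mul_le_of_le hJn hXs1)).trans (by norm_num)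
  have hS'J : ‖S' - J‖ ≤ 9 / 1000 := by
    have e : S' - J = (S - J) - (S - S') := by abel
    rw [e]
    exact (norm_sub_le_of_le hSJ hSS').trans (by norm_num)
  obtain ⟨Jh, hJhsa, hJhJh, hJhJ, hJhcom, hJhZ⟩ := sign_lemma S' J hS'sa hJJ hJn hS'J
  have hJhn : ‖Jh‖ ≤ 103 / 100 := (norm_le_of_near hJhJ hJn).trans (by norm_num)
  -- commutation with the coarse functions of `B`
  have hcoarse : ∀ H : ℤ → ℂ, (∀ k, star (H k) = H k) →
      Commute Jh (cfc (fun z : ℂ => H ⌊(z.re + 1) / 4⌋) B) := by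
    intro H hH
    apply hJhcom
    set h := cfc (fun z : ℂ => H ⌊(z.re + 1) / 4⌋) B with hh
    set hs := cfc (fun z : ℂ => H ⌊(z.re + 2) / 4⌋) A with hhs
    have hhsa : IsSelfAdjoint h := fsa _ _ (fun z => hH _)
    have hhssa : IsSelfAdjoint hs := fsa _ _ (fun z => hH _)
    have e1 : h * q * X = q * X * hs := by
      have := prop_L hfin φ hφ A B (fun _ => 1) (fun z => H ⌊(z.re + 1) / 4⌋ * fq z)
        (fun z : ℂ => H ⌊(z.re + 2) / 4⌋) fq (fun α β h => R2 H α β h)
      rw [fmul hfin, fone A hA, mul_one, ← hXd] at this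
      exact this
    have e2 : star X * (q * h) = hs * (star X * q) := by
      have := congrArg star e1
      rw [star_mul, star_mul, star_mul, star_mul, hhsa.star_eq, hqsa.star_eq,
        hhssa.star_eq] at this
      exact this
    have c1 : hs * J = J * hs := (fcomm _ _ A).eq
    have c2 : h * (p * jB) = (p * jB) * h :=
      ((fcomm (fun z : ℂ => H ⌊(z.re + 1) / 4⌋) fp B).mul_right
        (fcomm (fun z : ℂ => H ⌊(z.re + 1) / 4⌋) fj B)).eq
    change S' * h = h * S'
    symm
    calc h * S' = (h * q * X) * J * star X * q + h * (p * jB) := by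
          rw [hS', hS]; noncomm_ring
      _ = q * X * (hs * J) * star X * q + h * (p * jB) := by rw [e1]; noncomm_ring
      _ = q * X * J * (hs * (star X * q)) + h * (p * jB) := by rw [c1]; noncomm_ring
      _ = q * X * J * (star X * (q * h)) + (p * jB) * h := by rw [e2, c2]
      _ = S' * h := by rw [hS', hS]; noncomm_ring
  have cJμ : Jh * μB = μB * Jh := (hcoarse (fun k => 4 * (k : ℂ)) (fun k => by simp)).eq
  have cJν : Jh * νB = νB * Jh := (hcoarse (fun k => 2 * sg k) (fun k => by
    rw [star_mul', star_sg]; simp)).eq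
  -- the operator `Y`
  set Y := (1 / 2 : ℂ) • (X + Jh * X * J) with hY
  have hhalf : ‖(1 / 2 : ℂ)‖ = 1 / 2 := by norm_num
  have hY1 : ‖Y - 1‖ ≤ 18 / 1000 := by
    have e : Y - 1 = (X - 1) + (1 / 2 : ℂ) • ((Jh * X - X * J) * J) := by
      have e1 : (Jh * X - X * J) * J = Jh * X * J - X := by
        calc (Jh * X - X * J) * J = Jh * X * J - X * (J * J) := by noncomm_ring
          _ = _ := by rw [hJJ, mul_one]
      rw [e1, hY]
      module
    have e2 : Jh * X - X * J = (Jh - J) * X + (J * (X - 1) - (X - 1) * J) := by noncomm_ring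
    have h1 : ‖Jh * X - X * J‖ ≤ 33 / 1000 := by
      rw [e2]
      exact (norm_add_le_of_le (norm_mul_le_of_le hJhJ hXn) (norm_sub_le_of_le
        (norm_mul_le_of_le hJn hX) (norm_mul_le_of_le hX hJn))).trans (by norm_num)
    have h2 : ‖(1 / 2 : ℂ) • ((Jh * X - X * J) * J)‖ ≤ 1 / 2 * (33 / 1000 * 1) := by
      rw [norm_smul, hhalf]
      exact mul_le_mul_of_nonneg_left (norm_mul_le_of_le h1 hJn) (by norm_num)
    rw [e]
    exact (norm_add_le_of_le hX h2).trans (by norm_num)
  obtain ⟨W, hWu, hW1, hWint, hWcom⟩ := polar_lemma Y hY1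
  have hWW : star W * W = 1 := (Unitary.mem_iff.1 hWu).1
  have hWW' : W * star W = 1 := (Unitary.mem_iff.1 hWu).2
  have hWn : ‖W‖ ≤ 1 := (CStarRing.norm_of_mem_unitary hWu).le
  have hWsn : ‖star W‖ ≤ 1 := by rw [norm_star]; exact hWn
  set Mh := μB + νB * Jh with hMh
  have hMhsa : IsSelfAdjoint Mh := by
    rw [isSelfAdjoint_iff, hMh, star_add, star_mul, hμsa.star_eq, hνsa.star_eq, hJhsa.star_eq,
      cJν]
  have hMhY : Mh * Y = Y * M := by
    have r3 : μB * X + νB * X * J = X * M := by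
      have := prop_L3 hfin φ hφ A B (fun _ => 1) fj fm fμ fν (fun _ => 1)
        (fun α β h => R3 α β h)
      rw [fone A hA, fone B hB, mul_one, one_mul, ← hXd] at this
      exact this
    have hJY : Jh * Y = Y * J := by
      rw [hY, mul_smul_comm, smul_mul_assoc]
      congr 1
      calc Jh * (X + Jh * X * J) = Jh * X + (Jh * Jh) * X * J := by noncomm_ring
        _ = Jh * X * (J * J) + X * J := by rw [hJhJh, hJJ]; noncomm_ring
        _ = (X + Jh * X * J) * J := by noncomm_ring
    calc Mh * Y = μB * Y + νB * (Jh * Y) := by rw [hMh]; noncomm_ring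
      _ = μB * Y + νB * (Y * J) := by rw [hJY]
      _ = (1 / 2 : ℂ) • (μB * X + (μB * Jh) * X * J + (νB * X * J + (νB * Jh) * X * J * J)) := by
          rw [hY, mul_smul_comm, smul_mul_assoc, mul_smul_comm, ← smul_add]
          congr 1
          noncomm_ring
      _ = (1 / 2 : ℂ) • ((μB * X + νB * X * J) + Jh * (μB * X + νB * X * J) * J) := by
          rw [← cJμ, ← cJν]
          congr 1
          noncomm_ring
      _ = (1 / 2 : ℂ) • (X * M + Jh * X * (M * J)) := by
          rw [r3]; congr 1; noncomm_ring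
      _ = (1 / 2 : ℂ) • (X * M + Jh * X * (J * M)) := by rw [cMJ]
      _ = Y * M := by
          rw [hY, smul_mul_assoc]; congr 1; noncomm_ring
  have hMhW : Mh * W = W * M := hWint M Mh hMsa hMhsa hMhY
  have hMhW' : W * M * star W = Mh := by
    rw [← hMhW, mul_assoc, hWW', mul_one]
  -- commutator bounds
  have hK' : ‖a * star X - star X * b‖ ≤ 1 := by
    have : a * star X - star X * b = -star (b * X - X * a) := by
      rw [star_sub, star_mul, star_mul, hasa.star_eq, hbsa.star_eq]; abel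
    rw [this, norm_neg, norm_star]; exact hK
  have hbS : ‖b * S - S * b‖ ≤ 3 := by
    have e : b * S - S * b = (b * X - X * a) * J * star X + X * J * (a * star X - star X * b) := by
      rw [hS]
      calc b * (X * J * star X) - X * J * star X * b
          = b * X * J * star X - X * (a * J) * star X + X * (a * J) * star X
            - X * J * star X * b := by noncomm_ring
        _ = b * X * J * star X - X * (a * J) * star X + X * (J * a) * star X
            - X * J * star X * b := by rw [cJa]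
        _ = _ := by noncomm_ring
    rw [e]
    exact (norm_add_le_of_le (norm_mul_le_of_le (norm_mul_le_of_le hK hJn) hXs)
      (norm_mul_le_of_le (norm_mul_le_of_le hXn hJn) hK')).trans (by norm_num)
  have hbS' : ‖b * S' - S' * b‖ ≤ 3 := by
    have e : b * S' - S' * b = q * (b * S - S * b) * q := by
      rw [hS']
      calc b * (q * S * q + p * jB) - (q * S * q + p * jB) * b
          = (b * q) * S * q - q * S * (q * b) + (b * (p * jB) - (p * jB) * b) := by noncomm_ring
        _ = (q * b) * S * q - q * S * (b * q) := by rw [cpjb, ← cqb]; noncomm_ring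
        _ = _ := by noncomm_ring
    rw [e]
    exact (norm_mul_le_of_le (norm_mul_le_of_le hqn hbS) hqn).trans (by norm_num)
  have hbJh : ‖b * Jh - Jh * b‖ ≤ 12 := by
    have := hJhZ b
    linarith
  have hbY : ‖b * Y - Y * a‖ ≤ 8 := by
    have e : b * Y - Y * a = (1 / 2 : ℂ) • ((b * X - X * a) + ((b * Jh - Jh * b) * X * J +
        Jh * (b * X - X * a) * J)) := by
      rw [hY, mul_smul_comm, smul_mul_assoc, ← smul_sub]
      congr 1
      calc b * (X + Jh * X * J) - (X + Jh * X * J) * a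
          = b * X - X * a + (b * Jh * X * J - Jh * X * (J * a)) := by noncomm_ring
        _ = b * X - X * a + (b * Jh * X * J - Jh * X * (a * J)) := by rw [cJa]
        _ = _ := by noncomm_ring
    rw [e, norm_smul, hhalf]
    have := norm_add_le_of_le hK (norm_add_le_of_le (norm_mul_le_of_le
      (norm_mul_le_of_le hbJh hXn) hJn) (norm_mul_le_of_le (norm_mul_le_of_le hJhn hK) hJn))
    norm_num at this ⊢
    linarith
  have hbW : ‖b * W - W * a‖ ≤ 32 := by
    have := hWcom a b hasa hbsa
    linarith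
  set Kt := (1 / 2 : ℂ) • (b + Jh * b * Jh) with hKt
  have hKtsa : IsSelfAdjoint Kt := by
    rw [isSelfAdjoint_iff, hKt, star_smul, star_add, star_mul, star_mul, hbsa.star_eq,
      hJhsa.star_eq, ← mul_assoc]
    congr 1
    simp
  have hKtb : ‖b - Kt‖ ≤ 7 := by
    have e : b - Kt = (1 / 2 : ℂ) • ((b * Jh - Jh * b) * Jh) := by
      have e1 : (b * Jh - Jh * b) * Jh = b - Jh * b * Jh := by
        calc (b * Jh - Jh * b) * Jh = b * (Jh * Jh) - Jh * b * Jh := by noncomm_ring
          _ = _ := by rw [hJhJh, mul_one]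
      rw [e1, hKt]
      module
    rw [e, norm_smul, hhalf]
    have := norm_mul_le_of_le hbJh hJhn
    norm_num at this ⊢
    linarith
  have hνJ : ‖νB * Jh‖ ≤ 3 := (norm_mul_le_of_le hνn hJhn).trans (by norm_num)
  have hMH : ‖M - HH A‖ ≤ 2 := by
    rw [hM, HH, ← fsub hfin]
    exact fnorm _ _ (by norm_num) norm_fm
  have hμH : ‖μB - HH B‖ ≤ 3 := by
    rw [hμB, HH, ← fsub hfin]
    exact fnorm _ _ (by norm_num) norm_fμ
  have hMhM : ‖Mh - M‖ ≤ 9 := by
    have e : Mh - M = (μB - HH B) + (HH B - HH A) - (M - HH A) + νB * Jh := by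
      rw [hMh]; abel
    rw [e]
    exact (norm_add_le_of_le (norm_sub_le_of_le (norm_add_le_of_le hμH hHH) hMH) hνJ).trans
      (by norm_num)
  -- commutation facts
  have cMa : Commute M a := fcomm _ _ A
  have cHa : Commute (HH A) a := fcomm _ _ A
  have cμb : Commute μB b := fcomm _ _ B
  have cνb : Commute νB b := fcomm _ _ B
  have cHb : Commute (HH B) b := fcomm _ _ B
  have cJμ' : Commute Jh μB := cJμ
  have cJν' : Commute Jh νB := cJν
  have cJK : Commute Jh Kt := by
    rw [hKt]
    apply Commute.smul_right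
    change Jh * (b + Jh * b * Jh) = (b + Jh * b * Jh) * Jh
    calc Jh * (b + Jh * b * Jh) = Jh * b + (Jh * Jh) * b * Jh := by noncomm_ring
      _ = Jh * b * (Jh * Jh) + b * Jh := by rw [hJhJh]; noncomm_ring
      _ = _ := by noncomm_ring
  have cμK : Commute μB Kt := by
    rw [hKt]
    exact (cμb.add_right ((cJμ'.symm.mul_right cμb).mul_right cJμ'.symm)).smul_right _
  have cνK : Commute νB Kt := by
    rw [hKt]
    exact (cνb.add_right ((cJν'.symm.mul_right cνb).mul_right cJν'.symm)).smul_right _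
  have cMhK : Commute Mh Kt := by
    rw [hMh]
    exact cμK.add_left (cνK.mul_left cJK)
  have cMhW : Commute Mh (W * a * star W) := by
    rw [← hMhW']
    change W * M * star W * (W * a * star W) = W * a * star W * (W * M * star W)
    calc W * M * star W * (W * a * star W) = W * M * (star W * W) * a * star W := by noncomm_ring
      _ = W * (M * a) * star W := by rw [hWW]; noncomm_ring
      _ = W * (a * M) * star W := by rw [cMa.eq]
      _ = W * a * (star W * W) * M * star W := by rw [hWW]; noncomm_ring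
      _ = _ := by noncomm_ring
  have hWasa : IsSelfAdjoint (W * a * star W) := hasa.conjugate W
  -- the six segments
  have seg1 : Conn 2 A (M + Complex.I • a) := by
    have := (Conn.re (HH_sa A) hMsa hasa cHa cMa).mono hMH
    rwa [← HK hfin A hA] at this
  have seg2 : Conn 84 (M + Complex.I • a) (Mh + Complex.I • (W * a * star W)) := by
    have h1 := Conn.conj hWu (normal_of_comm hMsa hasa cMa) hW1
    have e1 : W * (M + Complex.I • a) * star W = Mh + Complex.I • (W * a * star W) := by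
      rw [mul_add, add_mul, hMhW', mul_smul_comm, smul_mul_assoc]
    rw [e1] at h1
    apply h1.mono
    have e2 : W * (M + Complex.I • a) - (M + Complex.I • a) * W =
        (Mh - M) * W + Complex.I • ((b - a) * W - (b * W - W * a)) := by
      have : W * M = Mh * W := hMhW.symm
      rw [mul_add, this, add_mul M (Complex.I • a) W, mul_smul_comm, smul_mul_assoc]
      have e3 : (b - a) * W - (b * W - W * a) = W * a - a * W := by noncomm_ring
      rw [e3, smul_sub]; noncomm_ring
    have h3 : ‖W * (M + Complex.I • a) - (M + Complex.I • a) * W‖ ≤ 9 * 1 + (1 * 1 + 32) := by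
      rw [e2]
      apply norm_add_le_of_le (norm_mul_le_of_le hMhM hWn)
      rw [norm_smul, Complex.norm_I, one_mul]
      exact norm_sub_le_of_le (norm_mul_le_of_le hba hWn) hbW
    linarith
  have seg3 : Conn 39 (Mh + Complex.I • (W * a * star W)) (Mh + Complex.I • Kt) := by
    apply (Conn.im hMhsa hWasa hKtsa cMhW cMhK).mono
    have e : Kt - W * a * star W = (b * W - W * a) * star W - (b - Kt) := by
      calc Kt - W * a * star W = b * (W * star W) - W * a * star W - (b - Kt) := by
            rw [hWW', mul_one]; abel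
        _ = _ := by noncomm_ring
    rw [e]
    exact (norm_sub_le_of_le (norm_mul_le_of_le hbW hWsn) hKtb).trans (by norm_num)
  have seg4 : Conn 3 (Mh + Complex.I • Kt) (μB + Complex.I • Kt) := by
    apply (Conn.re hMhsa hμsa hKtsa cMhK cμK).mono
    have e : μB - Mh = -(νB * Jh) := by rw [hMh]; abel
    rw [e, norm_neg]; exact hνJ
  have seg5 : Conn 7 (μB + Complex.I • Kt) (μB + Complex.I • b) :=
    (Conn.im hμsa hKtsa hbsa cμK cμb).mono hKtb
  have seg6 : Conn 3 (μB + Complex.I • b) B := by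
    have h0 : ‖HH B - μB‖ ≤ 3 := by rw [norm_sub_rev]; exact hμH
    have := (Conn.re hμsa (HH_sa B) hbsa cμb cHb).mono h0
    rwa [← HK hfin B hB] at this
  exact (((((seg1.trans seg2).trans seg3).trans seg4).trans seg5).trans seg6).mono (by norm_num)

end Pool.Agent.X194.NP
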