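import Pool.Agent.X194.NP.Basic

namespace Pool.Agent.X194.NP

variable {𝔸 : Type*} [CStarAlgebra 𝔸]

/-- two normal elements are connected by a normal path with Lipschitz constant `c` -/
def Conn (c : ℝ) (A B : 𝔸) : Prop :=
  ∃ γ : ℝ → 𝔸, γ 0 = A ∧ γ 1 = B ∧ (∀ t, IsStarNormal (γ t)) ∧
    ∀ s t, ‖γ s - γ t‖ ≤ c * |s - t|

/-- clamping to `[0,1]` -/
noncomputable def cl (x : ℝ) : ℝ := max 0 (min 1 x)

lemma cl_lip (x y : ℝ) : |cl x - cl y| ≤ |x - y| := by
  unfold cl
  calc |max 0 (min 1 x) - max 0 (min 1 y)| ≤ |min 1 x - min 1 y| := by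
        have := abs_max_sub_max_le_abs (min 1 x) (min 1 y) 0
        rwa [max_comm 0, max_comm 0]
    _ ≤ |x - y| := by
        have := abs_min_sub_min_le_max 1 x 1 y
        simpa using this

lemma cl_mem (x : ℝ) : 0 ≤ cl x ∧ cl x ≤ 1 := by
  unfold cl
  exact ⟨le_max_left _ _, max_le zero_le_one (min_le_left _ _)⟩

lemma cl_of_nonpos {x : ℝ} (h : x ≤ 0) : cl x = 0 := by
  unfold cl
  exact max_eq_left ((min_le_right _ _).trans h)

lemma cl_of_one_le {x : ℝ} (h : 1 ≤ x) : cl x = 1 := by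
  unfold cl
  rw [min_eq_left h]; simp

lemma Conn.mono {c d : ℝ} {A B : 𝔸} (h : Conn c A B) (hcd : c ≤ d) : Conn d A B := by
  obtain ⟨γ, h0, h1, hn, hl⟩ := h
  exact ⟨γ, h0, h1, hn, fun s t => (hl s t).trans (mul_le_mul_of_nonneg_right hcd (abs_nonneg _))⟩

lemma Conn.symm {c : ℝ} {A B : 𝔸} (h : Conn c A B) : Conn c B A := by
  obtain ⟨γ, h0, h1, hn, hl⟩ := h
  refine ⟨fun t => γ (1 - t), by simpa using h1, by simpa using h0, fun t => hn _, ?_⟩
  intro s t
  refine (hl _ _).trans (le_of_eq ?_)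
  congr 1
  rw [← abs_neg]; congr 1; ring

lemma Conn.nonneg {c : ℝ} {A B : 𝔸} (h : Conn c A B) : 0 ≤ c := by
  obtain ⟨γ, h0, h1, hn, hl⟩ := h
  have := hl 0 1
  have h2 := norm_nonneg (γ 0 - γ 1)
  simp at this
  linarith

lemma Conn.trans {c d : ℝ} {A B C : 𝔸} (h : Conn c A B) (h' : Conn d B C) :
    Conn (2 * (c + d)) A C := by
  have hc := h.nonneg
  have hd := h'.nonneg
  obtain ⟨γ, h0, h1, hn, hl⟩ := h
  obtain ⟨γ', h0', h1', hn', hl'⟩ := h'
  refine ⟨fun t => γ (cl (2 * t)) + γ' (cl (2 * t - 1)) - B, ?_, ?_, ?_, ?_⟩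
  · simp only
    rw [cl_of_nonpos (by norm_num), cl_of_nonpos (by norm_num), h0, h0']; abel
  · simp only
    rw [cl_of_one_le (by norm_num), cl_of_one_le (by norm_num), h1, h1']; abel
  · intro t
    simp only
    rcases le_total t (1 / 2) with ht | ht
    · rw [cl_of_nonpos (x := 2 * t - 1) (by linarith), h0', add_sub_cancel_right]
      exact hn _
    · rw [cl_of_one_le (x := 2 * t) (by linarith), h1, add_sub_cancel_left]
      exact hn' _
  · intro s t
    have e : γ (cl (2 * s)) + γ' (cl (2 * s - 1)) - B - (γ (cl (2 * t)) + γ' (cl (2 * t - 1)) - B)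
        = (γ (cl (2 * s)) - γ (cl (2 * t))) + (γ' (cl (2 * s - 1)) - γ' (cl (2 * t - 1))) := by
      abel
    simp only
    rw [e]
    have a1 := hl (cl (2 * s)) (cl (2 * t))
    have a2 := hl' (cl (2 * s - 1)) (cl (2 * t - 1))
    have b1 : |cl (2 * s) - cl (2 * t)| ≤ 2 * |s - t| := by
      refine (cl_lip _ _).trans (le_of_eq ?_)
      rw [← mul_sub, abs_mul]; norm_num
    have b2 : |cl (2 * s - 1) - cl (2 * t - 1)| ≤ 2 * |s - t| := by
      refine (cl_lip _ _).trans (le_of_eq ?_)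
      rw [show 2 * s - 1 - (2 * t - 1) = 2 * (s - t) by ring, abs_mul]; norm_num
    have c1 := mul_le_mul_of_nonneg_left b1 hc
    have c2 := mul_le_mul_of_nonneg_left b2 hd
    have := norm_add_le (γ (cl (2 * s)) - γ (cl (2 * t)))
      (γ' (cl (2 * s - 1)) - γ' (cl (2 * t - 1)))
    nlinarith

lemma Conn.line {A B : 𝔸} (h : ∀ t : ℝ, IsStarNormal (A + (t : ℂ) • (B - A))) :
    Conn ‖B - A‖ A B := by
  refine ⟨fun t => A + ((t : ℝ) : ℂ) • (B - A), by simp, by simp, fun t => h t, ?_⟩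
  intro s t
  have e : A + (s : ℂ) • (B - A) - (A + (t : ℂ) • (B - A)) = ((s - t : ℝ) : ℂ) • (B - A) := by
    rw [Complex.ofReal_sub, sub_smul]; abel
  rw [e, norm_smul, Complex.norm_real, Real.norm_eq_abs, mul_comm]

lemma normal_of_comm {M K : 𝔸} (hM : IsSelfAdjoint M) (hK : IsSelfAdjoint K)
    (h : Commute M K) : IsStarNormal (M + Complex.I • K) := by
  constructor
  have e1 : star (M + Complex.I • K) = M - Complex.I • K := by
    rw [star_add, star_smul, hM.star_eq, hK.star_eq]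
    simp [sub_eq_add_neg]
  rw [e1]
  have h1 : Commute M (Complex.I • K) := h.smul_right _
  have h2 : Commute (M - Complex.I • K) (M + Complex.I • K) :=
    ((Commute.refl M).add_right h1).sub_left (h1.symm.add_right (Commute.refl _))
  exact h2

lemma Conn.re {M₁ M₂ K : 𝔸} (h1 : IsSelfAdjoint M₁) (h2 : IsSelfAdjoint M₂)
    (hK : IsSelfAdjoint K) (c1 : Commute M₁ K) (c2 : Commute M₂ K) :
    Conn ‖M₂ - M₁‖ (M₁ + Complex.I • K) (M₂ + Complex.I • K) := by
  have e : M₂ + Complex.I • K - (M₁ + Complex.I • K) = M₂ - M₁ := by abel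
  have := Conn.line (A := M₁ + Complex.I • K) (B := M₂ + Complex.I • K) (by
    intro t
    rw [e]
    have e2 : M₁ + Complex.I • K + (t : ℂ) • (M₂ - M₁) =
        (M₁ + (t : ℂ) • (M₂ - M₁)) + Complex.I • K := by abel
    rw [e2]
    apply normal_of_comm _ hK
    · exact c1.add_left ((c2.sub_left c1).smul_left _)
    · apply h1.add
      rw [isSelfAdjoint_iff, star_smul, (h2.sub h1).star_eq]
      simp)
  rwa [e] at this

lemma Conn.im {M K₁ K₂ : 𝔸} (hM : IsSelfAdjoint M) (h1 : IsSelfAdjoint K₁)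
    (h2 : IsSelfAdjoint K₂) (c1 : Commute M K₁) (c2 : Commute M K₂) :
    Conn ‖K₂ - K₁‖ (M + Complex.I • K₁) (M + Complex.I • K₂) := by
  have e : M + Complex.I • K₂ - (M + Complex.I • K₁) = Complex.I • (K₂ - K₁) := by
    rw [smul_sub]; abel
  have := Conn.line (A := M + Complex.I • K₁) (B := M + Complex.I • K₂) (by
    intro t
    rw [e]
    have e2 : M + Complex.I • K₁ + (t : ℂ) • Complex.I • (K₂ - K₁) =
        M + Complex.I • (K₁ + (t : ℂ) • (K₂ - K₁)) := by
      rw [smul_add, smul_comm, add_assoc]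
    rw [e2]
    apply normal_of_comm hM
    · apply h1.add
      rw [isSelfAdjoint_iff, star_smul, (h2.sub h1).star_eq]
      simp
    · exact c1.add_right ((c2.sub_right c1).smul_right _))
  rw [e, norm_smul, Complex.norm_I, one_mul] at this
  exact this

end Pool.Agent.X194.NP
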