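import Mathlib

namespace Pool.Agent.X194.NP

variable {𝔸 : Type*} [CStarAlgebra 𝔸] [Nontrivial 𝔸]

lemma root_aux {x : ℝ} (hx : |x - 1| ≤ 1 / 10) : |(√x)⁻¹ - 1| ≤ |x - 1| := by
  have h1 := abs_le.1 hx
  have hx0 : (0 : ℝ) < x := by linarith
  have hs : 0 < √x := Real.sqrt_pos.2 hx0
  have hs2 : √x * √x = x := Real.mul_self_sqrt hx0.le
  have hs3 : (9 : ℝ) / 10 ≤ √x := by
    apply Real.le_sqrt_of_sq_le
    nlinarith
  have e : (√x)⁻¹ - 1 = (1 - x) / (√x * (1 + √x)) := by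
    field_simp
    nlinarith
  rw [e, abs_div, abs_sub_comm]
  have h4 : 0 < √x * (1 + √x) := by positivity
  rw [abs_of_pos h4]
  apply div_le_self (abs_nonneg _)
  nlinarith

/-- the inverse square root of an element near `1` -/
theorem root (T : 𝔸) (hT : IsSelfAdjoint T) (h : ‖T - 1‖ ≤ 1 / 10) :
    ∃ G : 𝔸, IsSelfAdjoint G ∧ G * G * T = 1 ∧ (∀ Z, Commute T Z → Commute G Z) ∧
      ‖G - 1‖ ≤ ‖T - 1‖ ∧ ∀ Z, ‖Z * G - G * Z‖ ≤ ‖Z * T - T * Z‖ := by
  have hspec : ∀ x ∈ spectrum ℝ T, |x - 1| ≤ ‖T - 1‖ := by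
    intro x hx
    have h1 : x - 1 ∈ spectrum ℝ (T - 1) := by
      have := spectrum.sub_singleton_eq T (1 : ℝ)
      rw [map_one] at this
      rw [← this]
      exact Set.sub_mem_sub hx rfl
    have := spectrum.norm_le_norm_of_mem h1
    simpa using this
  have hpos : ∀ x ∈ spectrum ℝ T, 0 < x := by
    intro x hx
    have := abs_le.1 ((hspec x hx).trans h)
    linarith
  have hcont : ContinuousOn (fun x : ℝ => (√x)⁻¹) (spectrum ℝ T) := by
    apply ContinuousOn.inv₀ (Real.continuous_sqrt.continuousOn)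
    intro x hx
    exact (Real.sqrt_pos.2 (hpos x hx)).ne'
  set G : 𝔸 := cfc (fun x : ℝ => (√x)⁻¹) T with hG
  have hGsa : IsSelfAdjoint G := cfc_predicate _ _
  have hGT : G * G * T = 1 := by
    have e1 : G * G * T = cfc (fun x : ℝ => (√x)⁻¹ * (√x)⁻¹ * x) T := by
      rw [cfc_mul (R := ℝ) (fun x : ℝ => (√x)⁻¹ * (√x)⁻¹) (fun x : ℝ => x) T (hcont.mul hcont)
        continuousOn_id, cfc_mul (R := ℝ) (fun x : ℝ => (√x)⁻¹) (fun x : ℝ => (√x)⁻¹) T hcont
        hcont, cfc_id' ℝ T]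
    rw [e1, ← cfc_const_one ℝ T]
    apply cfc_congr
    intro x hx
    have h0 := Real.sqrt_pos.2 (hpos x hx)
    have h1 := Real.mul_self_sqrt (hpos x hx).le
    simp only
    field_simp
    nlinarith
  have hcom : ∀ Z, Commute T Z → Commute G Z := fun Z hZ => hZ.cfc_real _
  have hnorm : ‖G - 1‖ ≤ ‖T - 1‖ := by
    have e1 : G - 1 = cfc (fun x : ℝ => (√x)⁻¹ - 1) T := by
      rw [cfc_sub (R := ℝ) _ _ T hcont continuousOn_const, cfc_const_one ℝ T]
    rw [e1]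
    apply norm_cfc_le (norm_nonneg _)
    intro x hx
    exact (root_aux ((hspec x hx).trans h)).trans (hspec x hx)
  refine ⟨G, hGsa, hGT, hcom, hnorm, ?_⟩
  intro Z
  have hGTc : G * T = T * G := (hcom T (Commute.refl T)).eq
  have hTV : T * (G * G) = 1 := by
    rw [← hGT]
    calc T * (G * G) = (T * G) * G := by noncomm_ring
      _ = (G * T) * G := by rw [hGTc]
      _ = G * (T * G) := by noncomm_ring
      _ = G * (G * T) := by rw [hGTc]
      _ = G * G * T := by noncomm_ring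
  set D := Z * G - G * Z with hD
  set V := G * G with hV
  have h1 : Z * V - V * Z = D * G + G * D := by
    rw [hD, hV]; noncomm_ring
  have h2 : Z * V - V * Z = -(V * (Z * T - T * Z) * V) := by
    have e : V * (Z * T - T * Z) * V = V * Z * (T * V) - (V * T) * Z * V := by noncomm_ring
    rw [e, hTV, hGT]
    noncomm_ring
  have hG1 : ‖G - 1‖ ≤ 1 / 10 := hnorm.trans h
  have hGn : ‖G‖ ≤ 11 / 10 := by
    have : G = (G - 1) + 1 := by abel
    rw [this]
    refine (norm_add_le _ _).trans ?_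
    rw [norm_one]
    linarith
  have hVn : ‖V‖ ≤ 121 / 100 := by
    refine (norm_mul_le _ _).trans ?_
    nlinarith [norm_nonneg G]
  have h3 : ‖Z * V - V * Z‖ ≤ (121 / 100) ^ 2 * ‖Z * T - T * Z‖ := by
    rw [h2, norm_neg]
    refine (norm_mul_le _ _).trans ?_
    have := norm_mul_le V (Z * T - T * Z)
    have hb := norm_nonneg (Z * T - T * Z)
    have hv := norm_nonneg V
    calc ‖V * (Z * T - T * Z)‖ * ‖V‖ ≤ (‖V‖ * ‖Z * T - T * Z‖) * ‖V‖ := by gcongr
      _ = ‖V‖ ^ 2 * ‖Z * T - T * Z‖ := by ring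
      _ ≤ (121 / 100) ^ 2 * ‖Z * T - T * Z‖ := by gcongr
  have h4 : (2 : ℂ) • D = (Z * V - V * Z) - D * (G - 1) - (G - 1) * D := by
    rw [h1, two_smul]; noncomm_ring
  have h5 : 2 * ‖D‖ ≤ ‖Z * V - V * Z‖ + ‖D‖ * (1 / 10) + (1 / 10) * ‖D‖ := by
    have e : ‖(2 : ℂ) • D‖ = 2 * ‖D‖ := by rw [norm_smul]; norm_num
    rw [← e, h4]
    refine (norm_sub_le _ _).trans (add_le_add ((norm_sub_le _ _).trans (add_le_add le_rfl ?_)) ?_)
    · refine (norm_mul_le _ _).trans ?_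
      gcongr
    · refine (norm_mul_le _ _).trans ?_
      gcongr
  have h6 := norm_nonneg (Z * T - T * Z)
  nlinarith [norm_nonneg D]

end Pool.Agent.X194.NP
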